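import Pool.Agent.helper61.CSW.W.SpecW

set_option autoImplicit false

open Complex Metric Set Filter Topology MeasureTheory
open YPPS (fd fdd pre TT CV IsCyc rho Exact)
open MPS (BB)
open Pool.Agent.helper98.ILF (juliaSet fatouSet)

noncomputable section

open CSS (SE SV JJ)

namespace YW

/-- A function which is continuous off a finite set and vanishes a.e. vanishes off the finite set. -/
theorem RSZ_cont (P : Set ℂ) (hP : P.Finite) (g : ℂ → ℂ) (hg : ContinuousOn g Pᶜ) (h0 : ∀ᵐ z : ℂ, g z = 0) :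
    ∀ z ∉ P, g z = 0 := by
  intro z hz
  by_contra hne
  have hop : IsOpen (Pᶜ ∩ g ⁻¹' {(0 : ℂ)}ᶜ) := hg.isOpen_inter_preimage hP.isClosed.isOpen_compl isOpen_compl_singleton
  have hpos : 0 < volume (Pᶜ ∩ g ⁻¹' {(0 : ℂ)}ᶜ) := hop.measure_pos volume ⟨z, hz, hne⟩
  have hnull : volume (Pᶜ ∩ g ⁻¹' {(0 : ℂ)}ᶜ) = 0 := by
    refine measure_mono_null ?_ h0
    intro w hw
    exact hw.2
  exact hpos.ne' hnull

theorem RSZ_lim0 (e a : ℂ) (h : a ≠ e) (m n : ℕ) (hm : m ≠ 0) :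
    Tendsto (fun z : ℂ => (z - e) ^ m / (z - a) ^ n) (𝓝[≠] e) (𝓝 0) := by
  have h1 : (e - a) ^ n ≠ 0 := pow_ne_zero _ (sub_ne_zero.2 h.symm)
  have h2 : ContinuousAt (fun z : ℂ => (z - e) ^ m / (z - a) ^ n) e :=
    ((continuousAt_id.sub continuousAt_const).pow m).div ((continuousAt_id.sub continuousAt_const).pow n) h1
  have h3 := h2.tendsto
  simp only [sub_self, zero_pow hm, zero_div] at h3
  exact h3.mono_left nhdsWithin_le_nhds

theorem RSZ_lim1 (e : ℂ) (m : ℕ) : Tendsto (fun z : ℂ => (z - e) ^ m / (z - e) ^ m) (𝓝[≠] e) (𝓝 1) := by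
  refine tendsto_const_nhds.congr' ?_
  filter_upwards [self_mem_nhdsWithin] with z hz
  have : z - e ≠ 0 := sub_ne_zero.2 hz
  rw [div_self (pow_ne_zero _ this)]

theorem RSZ_limp (e : ℂ) : Tendsto (fun z : ℂ => (z - e) ^ 2 / (z - e)) (𝓝[≠] e) (𝓝 0) := by
  have h2 : ContinuousAt (fun z : ℂ => z - e) e := continuousAt_id.sub continuousAt_const
  have h3 := h2.tendsto
  simp only [sub_self] at h3
  refine (h3.mono_left nhdsWithin_le_nhds).congr' ?_
  filter_upwards [self_mem_nhdsWithin] with z hz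
  have : z - e ≠ 0 := sub_ne_zero.2 hz
  rw [pow_two, mul_div_assoc, div_self this, mul_one]

theorem RSZ_ev (P : Set ℂ) (hP : P.Finite) (e : ℂ) : ∀ᶠ z in 𝓝[≠] e, z ∉ P := by
  have h1 : (P \ {e})ᶜ ∈ 𝓝 e := (hP.subset diff_subset).isClosed.isOpen_compl.mem_nhds (fun h => h.2 rfl)
  filter_upwards [mem_nhdsWithin_of_mem_nhds h1, self_mem_nhdsWithin] with z hz hz2 hz3
  exact hz ⟨hz3, hz2⟩

theorem RSZ_1 (Q : Finset ℂ) (c : ℂ → ℂ) (h0 : ∀ᵐ z : ℂ, RS Q c z = 0) : ∀ e ∈ Q, c e = 0 := by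
  intro e he
  have hcont : ContinuousOn (RS Q c) (↑Q : Set ℂ)ᶜ := by
    unfold RS
    refine continuousOn_finset_sum _ fun a ha => ?_
    refine continuousOn_const.div (continuousOn_id.sub continuousOn_const) ?_
    intro z hz h
    exact hz (by rw [sub_eq_zero.1 h]; exact ha)
  have hz := RSZ_cont _ Q.finite_toSet _ hcont h0
  have hlim : Tendsto (fun z : ℂ => ∑ a ∈ Q, c a * ((z - e) ^ 1 / (z - a) ^ 1)) (𝓝[≠] e) (𝓝 (∑ a ∈ Q, c a * (if a = e then 1 else 0))) := by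
    refine tendsto_finset_sum _ fun a _ => ?_
    by_cases h : a = e
    · subst h
      simp only [if_true]
      exact (RSZ_lim1 a 1).const_mul _
    · simp only [h, if_false]
      exact (RSZ_lim0 e a h 1 1 one_ne_zero).const_mul _
  have hlim2 : Tendsto (fun z : ℂ => ∑ a ∈ Q, c a * ((z - e) ^ 1 / (z - a) ^ 1)) (𝓝[≠] e) (𝓝 0) := by
    refine tendsto_const_nhds.congr' ?_
    filter_upwards [RSZ_ev _ Q.finite_toSet e] with z hz2
    have h1 := hz z hz2
    have h2 : ∑ a ∈ Q, c a * ((z - e) ^ 1 / (z - a) ^ 1) = (z - e) * RS Q c z := by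
      unfold RS
      rw [Finset.mul_sum]
      refine Finset.sum_congr rfl fun a _ => ?_
      rw [pow_one, pow_one]
      ring
    rw [h2, h1, mul_zero]
  have h3 := tendsto_nhds_unique hlim hlim2
  rw [Finset.sum_eq_single e] at h3
  · simpa using h3
  · intro a _ ha
    rw [if_neg ha, mul_zero]
  · intro h
    exact absurd he h

theorem RSZ_2 (f : SE) (X : NP f) (k : ℕ) [NeZero k] (b g : ZMod k → ℂ) (c₁ c₂ : ℂ) (hCQ : CQ f X b g c₁ c₂) :
    ¬ ∀ᵐ z : ℂ, qc X b g c₁ c₂ z = 0 := by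
  intro h0
  have hinj := hCQ.cyc.inj
  have hP : (range b ∪ {X.p₁, X.p₂} : Set ℂ).Finite := (finite_range b).union (by simp)
  have hcont : ContinuousOn (qc X b g c₁ c₂) (range b ∪ {X.p₁, X.p₂} : Set ℂ)ᶜ := by
    have hne : ∀ a ∈ (range b ∪ {X.p₁, X.p₂} : Set ℂ), ∀ z ∈ (range b ∪ {X.p₁, X.p₂} : Set ℂ)ᶜ, z - a ≠ 0 := by
      intro a ha z hz h
      exact hz (by rw [sub_eq_zero.1 h]; exact ha)
    unfold qc BB rr
    refine ContinuousOn.add (continuousOn_finset_sum _ fun i _ => ContinuousOn.add ?_ ?_) (ContinuousOn.add ?_ ?_)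
    · exact continuousOn_const.div ((continuousOn_id.sub continuousOn_const).pow 2)
        (fun z hz => pow_ne_zero _ (hne _ (Or.inl ⟨i, rfl⟩) z hz))
    · exact continuousOn_const.div (continuousOn_id.sub continuousOn_const) (fun z hz => hne _ (Or.inl ⟨i, rfl⟩) z hz)
    · exact continuousOn_const.div (continuousOn_id.sub continuousOn_const) (fun z hz => hne _ (Or.inr (Or.inl rfl)) z hz)
    · exact continuousOn_const.div (continuousOn_id.sub continuousOn_const) (fun z hz => hne _ (Or.inr (Or.inr rfl)) z hz)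
  have hz := RSZ_cont _ hP _ hcont h0
  have hlim : Tendsto (fun z : ℂ => (∑ i, ((z - b 0) ^ 2 / (z - b i) ^ 2 + g i * ((z - b 0) ^ 2 / (z - b i)))) +
      (c₁ * ((z - b 0) ^ 2 / (z - X.p₁) ^ 1) + c₂ * ((z - b 0) ^ 2 / (z - X.p₂) ^ 1))) (𝓝[≠] (b 0))
      (𝓝 ((∑ i, ((if i = 0 then (1 : ℂ) else 0) + g i * 0)) + (c₁ * 0 + c₂ * 0))) := by
    refine Tendsto.add (tendsto_finset_sum _ fun i _ => Tendsto.add ?_ ?_) (Tendsto.add ?_ ?_)
    · by_cases h : i = 0
      · subst h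
        simp only [if_true]
        exact RSZ_lim1 _ 2
      · simp only [h, if_false]
        exact RSZ_lim0 _ _ (fun h' => h (hinj h')) 2 2 two_ne_zero
    · refine Tendsto.const_mul _ ?_
      by_cases h : i = 0
      · subst h
        exact RSZ_limp _
      · have := RSZ_lim0 (b 0) (b i) (fun h' => h (hinj h')) 2 1 two_ne_zero
        simpa only [pow_one] using this
    · exact (RSZ_lim0 _ _ (hCQ.np1 0).symm 2 1 two_ne_zero).const_mul _
    · exact (RSZ_lim0 _ _ (hCQ.np2 0).symm 2 1 two_ne_zero).const_mul _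
  have hlim2 : Tendsto (fun z : ℂ => (∑ i, ((z - b 0) ^ 2 / (z - b i) ^ 2 + g i * ((z - b 0) ^ 2 / (z - b i)))) +
      (c₁ * ((z - b 0) ^ 2 / (z - X.p₁) ^ 1) + c₂ * ((z - b 0) ^ 2 / (z - X.p₂) ^ 1))) (𝓝[≠] (b 0)) (𝓝 0) := by
    refine tendsto_const_nhds.congr' ?_
    filter_upwards [RSZ_ev _ hP (b 0)] with z hz2
    have h1 := hz z hz2
    have h2 : (∑ i, ((z - b 0) ^ 2 / (z - b i) ^ 2 + g i * ((z - b 0) ^ 2 / (z - b i)))) +
      (c₁ * ((z - b 0) ^ 2 / (z - X.p₁) ^ 1) + c₂ * ((z - b 0) ^ 2 / (z - X.p₂) ^ 1)) = (z - b 0) ^ 2 * qc X b g c₁ c₂ z := by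
      unfold qc BB rr
      rw [mul_add, Finset.mul_sum, mul_add]
      congr 1
      · refine Finset.sum_congr rfl fun i _ => ?_
        ring
      · rw [pow_one, pow_one]
        ring
    rw [h2, h1, mul_zero]
  have h3 := tendsto_nhds_unique hlim hlim2
  simp only [mul_zero, add_zero, Finset.sum_ite_eq', Finset.mem_univ, if_true] at h3
  exact one_ne_zero h3

theorem RSZ : RSZ_stmt := ⟨RSZ_1, fun f X k _ b g c₁ c₂ h => RSZ_2 f X k b g c₁ c₂ h⟩

end YW
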